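import Pool.Agent.BER.Stmts

set_option autoImplicit false

/-!
# BER, row RSV: the resonant equation
-/

namespace Pool.Agent.BER.H58

open Set Filter Topology MeasureTheory
open scoped InnerProductSpace ENNReal
open Pool.Agent.BE01 Pool.Agent.BEL Pool.Agent.BEF Pool.Agent.BEN Pool.Agent.BEH Pool.Agent.BEG
open Pool.Agent.BER

noncomputable section

/-! ### trigonometric functions -/

def sg (s : Bool) : ℝ := bif s then 1 else -1

theorem sg_mul_not (s : Bool) : sg s * sg (!s) = -1 := by cases s <;> simp [sg]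

theorem sg_sq (s : Bool) : sg s * sg s = 1 := by cases s <;> simp [sg]

theorem tg_deriv (s : Bool) (n : ℕ) (ψ : ℝ) :
    HasDerivAt (tg s n) (((n : ℝ) * sg s) * tg (!s) n ψ) ψ := by
  have h0 : HasDerivAt (fun ψ : ℝ => (n : ℝ) * ψ) n ψ := by
    simpa using (hasDerivAt_id ψ).const_mul (n : ℝ)
  cases s
  · have h1 := h0.cos
    have h2 : tg false n = fun ψ : ℝ => Real.cos (n * ψ) := rfl
    rw [h2]
    refine h1.congr_deriv ?_
    show -Real.sin (n * ψ) * n = ((n : ℝ) * -1) * Real.sin (n * ψ)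
    ring
  · have h1 := h0.sin
    have h2 : tg true n = fun ψ : ℝ => Real.sin (n * ψ) := rfl
    rw [h2]
    refine h1.congr_deriv ?_
    show Real.cos (n * ψ) * n = ((n : ℝ) * 1) * Real.cos (n * ψ)
    ring

theorem tg_cont (s : Bool) (n : ℕ) : Continuous (tg s n) :=
  continuous_iff_continuousAt.2 fun ψ => (tg_deriv s n ψ).continuousAt

theorem int_cos (k : ℤ) (hk : k ≠ 0) : ∫ ψ in (0 : ℝ)..(2 * Real.pi), Real.cos (k * ψ) = 0 := by
  have hk' : (k : ℝ) ≠ 0 := by exact_mod_cast hk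
  rw [intervalIntegral.integral_comp_mul_left Real.cos hk', integral_cos]
  have : Real.sin ((k : ℝ) * (2 * Real.pi)) = 0 := by
    have h := Real.sin_int_mul_pi (2 * k)
    rw [← h]
    congr 1
    push_cast
    ring
  rw [this]
  simp

theorem int_sin (k : ℤ) : ∫ ψ in (0 : ℝ)..(2 * Real.pi), Real.sin (k * ψ) = 0 := by
  by_cases hk : k = 0
  · simp [hk]
  have hk' : (k : ℝ) ≠ 0 := by exact_mod_cast hk
  rw [intervalIntegral.integral_comp_mul_left Real.sin hk', integral_sin]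
  have : Real.cos ((k : ℝ) * (2 * Real.pi)) = 1 := Real.cos_int_mul_two_pi k
  rw [this]
  simp

theorem cc (k : ℤ) : Continuous fun ψ : ℝ => Real.cos (k * ψ) :=
  Real.continuous_cos.comp (continuous_const.mul continuous_id)

theorem cs (k : ℤ) : Continuous fun ψ : ℝ => Real.sin (k * ψ) :=
  Real.continuous_sin.comp (continuous_const.mul continuous_id)

theorem int_tg (s s' : Bool) (n n' : ℕ) (hn : 1 ≤ n) :
    ∫ ψ in (0 : ℝ)..(2 * Real.pi), tg s n ψ * tg s' n' ψ =
      if n = n' ∧ s = s' then Real.pi else 0 := by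
  have hsum : ((n : ℤ) + n') ≠ 0 := by positivity
  cases s <;> cases s'
  · have h1 : ∀ ψ : ℝ, tg false n ψ * tg false n' ψ =
        2⁻¹ * (Real.cos (((n : ℤ) - n' : ℤ) * ψ) + Real.cos (((n : ℤ) + n' : ℤ) * ψ)) := by
      intro ψ
      show Real.cos (n * ψ) * Real.cos (n' * ψ) = _
      push_cast
      rw [sub_mul, add_mul, Real.cos_add, Real.cos_sub]
      ring
    simp_rw [h1]
    rw [intervalIntegral.integral_const_mul, intervalIntegral.integral_add
      ((cc _).intervalIntegrable _ _) ((cc _).intervalIntegrable _ _), int_cos _ hsum]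
    by_cases h : n = n'
    · subst h
      simp
    · rw [int_cos _ (by omega), if_neg (fun h' => h h'.1)]
      simp
  · have h1 : ∀ ψ : ℝ, tg false n ψ * tg true n' ψ =
        2⁻¹ * (Real.sin (((n : ℤ) + n' : ℤ) * ψ) - Real.sin (((n : ℤ) - n' : ℤ) * ψ)) := by
      intro ψ
      show Real.cos (n * ψ) * Real.sin (n' * ψ) = _
      push_cast
      rw [sub_mul, add_mul, Real.sin_add, Real.sin_sub]
      ring
    simp_rw [h1]
    rw [intervalIntegral.integral_const_mul, intervalIntegral.integral_sub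
      ((cs _).intervalIntegrable _ _) ((cs _).intervalIntegrable _ _), int_sin, int_sin,
      if_neg (fun h' => by simpa using h'.2)]
    simp
  · have h1 : ∀ ψ : ℝ, tg true n ψ * tg false n' ψ =
        2⁻¹ * (Real.sin (((n : ℤ) + n' : ℤ) * ψ) + Real.sin (((n : ℤ) - n' : ℤ) * ψ)) := by
      intro ψ
      show Real.sin (n * ψ) * Real.cos (n' * ψ) = _
      push_cast
      rw [sub_mul, add_mul, Real.sin_add, Real.sin_sub]
      ring
    simp_rw [h1]
    rw [intervalIntegral.integral_const_mul, intervalIntegral.integral_add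
      ((cs _).intervalIntegrable _ _) ((cs _).intervalIntegrable _ _), int_sin, int_sin,
      if_neg (fun h' => by simpa using h'.2)]
    simp
  · have h1 : ∀ ψ : ℝ, tg true n ψ * tg true n' ψ =
        2⁻¹ * (Real.cos (((n : ℤ) - n' : ℤ) * ψ) - Real.cos (((n : ℤ) + n' : ℤ) * ψ)) := by
      intro ψ
      show Real.sin (n * ψ) * Real.sin (n' * ψ) = _
      push_cast
      rw [sub_mul, add_mul, Real.cos_add, Real.cos_sub]
      ring
    simp_rw [h1]
    rw [intervalIntegral.integral_const_mul, intervalIntegral.integral_sub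
      ((cc _).intervalIntegrable _ _) ((cc _).intervalIntegrable _ _), int_cos _ hsum]
    by_cases h : n = n'
    · subst h
      simp
    · rw [int_cos _ (by omega), if_neg (fun h' => h h'.1)]
      simp

/-! ### sums of generators -/

section gen

variable {X : Type} [NormedCommRing X] [NormedAlgebra ℝ X] {ι : Type} [Fintype ι]

/-- a sum of generators -/
def gn (N : ι → ℕ) (B : ℕ) (a : ℕ → ι → X) (s : ι → Bool) : ℝ → ℝ → X := fun ψ L =>
  ∑ b ∈ Finset.range B, ∑ k, (L ^ b * tg (s k) (N k) ψ) • a b k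

theorem gn_mem {M : ℕ} (N : ι → ℕ) (hN : ∀ k, Odd (N k) ∧ N k ≤ M) (B : ℕ) (a : ℕ → ι → X)
    (s : ι → Bool) : gn N B a s ∈ TL X M := by
  have h : gn N B a s = ∑ b ∈ Finset.range B, ∑ k, (fun ψ L => (L ^ b * tg (s k) (N k) ψ) • a b k) := by
    funext ψ L
    simp only [gn, Finset.sum_apply]
  rw [h]
  refine Submodule.sum_mem _ fun b _ => Submodule.sum_mem _ fun k _ => ?_
  exact Submodule.subset_span ⟨b, N k, s k, a b k, (hN k).1, (hN k).2, rfl⟩

theorem d1_gn (N : ι → ℕ) (B : ℕ) (a : ℕ → ι → X) (s : ι → Bool) :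
    d1 (gn N B a s) = gn N B (fun b k => ((N k : ℝ) * sg (s k)) • a b k) (fun k => !(s k)) := by
  funext ψ L
  unfold d1
  have h : HasDerivAt (fun t => gn N B a s t L) (∑ b ∈ Finset.range B, ∑ k,
      (L ^ b * ((N k : ℝ) * sg (s k) * tg (!(s k)) (N k) ψ)) • a b k) ψ := by
    unfold gn
    refine HasDerivAt.fun_sum fun b _ => HasDerivAt.fun_sum fun k _ => ?_
    exact ((tg_deriv (s k) (N k) ψ).const_mul (L ^ b)).smul_const (a b k)
  rw [h.deriv]
  unfold gn
  refine Finset.sum_congr rfl fun b _ => Finset.sum_congr rfl fun k _ => ?_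
  rw [smul_smul]
  congr 1
  ring

theorem d2_gn (N : ι → ℕ) (B : ℕ) (a : ℕ → ι → X) (s : ι → Bool) (ha : ∀ k, a B k = 0) :
    d2 (gn N B a s) = gn N B (fun b k => ((b : ℝ) + 1) • a (b + 1) k) s := by
  funext ψ L
  unfold d2
  have h : HasDerivAt (fun t => gn N B a s ψ t) (∑ b ∈ Finset.range B, ∑ k,
      (((b : ℝ) * L ^ (b - 1)) * tg (s k) (N k) ψ) • a b k) L := by
    unfold gn
    refine HasDerivAt.fun_sum fun b _ => HasDerivAt.fun_sum fun k _ => ?_
    exact ((hasDerivAt_pow b L).mul_const (tg (s k) (N k) ψ)).smul_const (a b k)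
  rw [h.deriv]
  unfold gn
  have h1 : ∑ b ∈ Finset.range B, ∑ k, (((b : ℝ) * L ^ (b - 1)) * tg (s k) (N k) ψ) • a b k =
      ∑ b ∈ Finset.range (B + 1), ∑ k, (((b : ℝ) * L ^ (b - 1)) * tg (s k) (N k) ψ) • a b k := by
    rw [Finset.sum_range_succ]
    simp [ha]
  rw [h1, Finset.sum_range_succ']
  simp only [Nat.cast_zero, zero_mul, zero_smul, Finset.sum_const_zero, add_zero,
    Nat.add_sub_cancel]
  refine Finset.sum_congr rfl fun b _ => Finset.sum_congr rfl fun k _ => ?_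
  rw [smul_smul]
  congr 1
  push_cast
  ring

end gen

/-! ### the test functionals -/

section tst

variable {X H : Type} [NormedCommRing X] [NormedAlgebra ℝ X] [NormedAddCommGroup H]
  [InnerProductSpace ℝ H]

/-- the test functional -/
def tst (W : Wx X H) (s : Bool) (n : ℕ) (x : X) : C(ℝ, X) →ₗ[ℝ] ℝ where
  toFun P := ∫ ψ in (0 : ℝ)..(2 * Real.pi), tg s n ψ * ⟪W.e (P ψ), W.e x⟫_ℝ
  map_add' P Q := by
    rw [← intervalIntegral.integral_add]
    · refine intervalIntegral.integral_congr fun ψ _ => ?_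
      show tg s n ψ * ⟪W.e (P ψ + Q ψ), W.e x⟫_ℝ = tg s n ψ * ⟪W.e (P ψ), W.e x⟫_ℝ +
        tg s n ψ * ⟪W.e (Q ψ), W.e x⟫_ℝ
      rw [map_add, inner_add_left, mul_add]
    · exact ((tg_cont s n).mul ((W.e.continuous.comp P.continuous).inner
        continuous_const)).intervalIntegrable _ _
    · exact ((tg_cont s n).mul ((W.e.continuous.comp Q.continuous).inner
        continuous_const)).intervalIntegrable _ _
  map_smul' r P := by
    rw [RingHom.id_apply, smul_eq_mul, ← intervalIntegral.integral_const_mul]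
    refine intervalIntegral.integral_congr fun ψ _ => ?_
    show tg s n ψ * ⟪W.e (r • P ψ), W.e x⟫_ℝ = r * (tg s n ψ * ⟪W.e (P ψ), W.e x⟫_ℝ)
    rw [map_smul, real_inner_smul_left]
    ring

/-- a single wave -/
def bw (s : Bool) (n : ℕ) (x : X) : C(ℝ, X) := ⟨fun ψ => tg s n ψ • x, (tg_cont s n).smul
  continuous_const⟩

theorem tst_bw (W : Wx X H) (s s' : Bool) (n n' : ℕ) (hn : 1 ≤ n) (x x' : X) :
    tst W s n x (bw s' n' x') = if n = n' ∧ s = s' then Real.pi * ⟪W.e x', W.e x⟫_ℝ else 0 := by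
  have h1 : tst W s n x (bw s' n' x') = ∫ ψ in (0 : ℝ)..(2 * Real.pi),
      (tg s n ψ * tg s' n' ψ) * ⟪W.e x', W.e x⟫_ℝ := by
    refine intervalIntegral.integral_congr fun ψ _ => ?_
    show tg s n ψ * ⟪W.e (tg s' n' ψ • x'), W.e x⟫_ℝ = _
    rw [map_smul, real_inner_smul_left]
    ring
  rw [h1, intervalIntegral.integral_mul_const, int_tg s s' n n' hn]
  split_ifs <;> simp

end tst

theorem rsv (frp : FrpStmt) (tlm : TlmStmt) (slv : SlvStmt) (odp : OdpStmt) : RsvStmt := by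
  intro X H _ _ _ _ W p κ0 c ω m φ χ J M hω hF hJM hgap F hFJ
  obtain ⟨B, x, y0, hxy, hrep⟩ := frp X J F hFJ
  -- the index set
  let ι : Type := Σ n : Fin (M + 1), Fin (m n) × Bool
  let N : ι → ℕ := fun k => (k.1 : ℕ)
  let Φ : ι → X := fun k => φ k.1 k.2.1
  let S : ι → Bool := fun k => k.2.2
  have hN : ∀ k : ι, Odd (N k) ∧ N k ≤ M := by
    intro k
    refine ⟨?_, Nat.lt_succ_iff.1 k.1.2⟩
    by_contra h
    have h1 : m (k.1 : ℕ) = 0 := hF.evn _ h
    have h2 := k.2.1.2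
    omega
  have hN1 : ∀ k : ι, 1 ≤ N k := fun k => (hN k).1.pos
  have hNr : ∀ k : ι, (N k : ℝ) ≠ 0 := fun k => by
    have := hN1 k
    positivity
  -- the test functionals
  let ts : ι → C(ℝ, X) →ₗ[ℝ] ℝ := fun k => tst W (S k) (N k) (Φ k)
  -- the waves
  let Yc : (ι → ℝ) →ₗ[ℝ] C(ℝ, X) := ∑ k, (LinearMap.proj k).smulRight (bw (S k) (N k) (Φ k))
  have hYc : ∀ v : ι → ℝ, Yc v = ∑ k, v k • bw (S k) (N k) (Φ k) := by
    intro v
    simp [Yc]
  have hon : ∀ k k' : ι, ts k (bw (S k') (N k') (Φ k')) = if k = k' then Real.pi else 0 := by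
    intro k k'
    show tst W (S k) (N k) (Φ k) (bw (S k') (N k') (Φ k')) = _
    rw [tst_bw W _ _ _ _ (hN1 k)]
    obtain ⟨⟨n, hn⟩, i, s⟩ := k
    obtain ⟨⟨n', hn'⟩, i', s'⟩ := k'
    by_cases h1 : n = n'
    · subst h1
      by_cases h2 : s = s'
      · subst h2
        have h3 := orthonormal_iff_ite.1 (hF.on n) i' i
        rw [if_pos ⟨rfl, rfl⟩]
        show Real.pi * ⟪W.e (φ n i'), W.e (φ n i)⟫_ℝ = _
        rw [h3]
        by_cases h4 : i' = i
        · subst h4
          simp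
        · rw [if_neg h4, if_neg]
          · simp
          · intro h5
            exact h4 (Prod.mk.inj (eq_of_heq (Sigma.mk.inj h5).2)).1.symm
      · rw [if_neg (fun h => h2 h.2), if_neg]
        intro h5
        exact h2 (Prod.mk.inj (eq_of_heq (Sigma.mk.inj h5).2)).2
    · rw [if_neg (fun h => h1 h.1), if_neg]
      intro h5
      have := congrArg (fun z : ι => (z.1 : ℕ)) h5
      exact h1 this
  have htY : ∀ k : ι, ∀ v : ι → ℝ, ts k (Yc v) = Real.pi * v k := by
    intro k v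
    rw [hYc, map_sum]
    simp only [map_smul, hon, smul_eq_mul]
    rw [Finset.sum_eq_single k]
    · rw [if_pos rfl, mul_comm]
    · intro k' _ hk'
      rw [if_neg (Ne.symm hk'), mul_zero]
    · intro h
      exact absurd (Finset.mem_univ k) h
  -- the multiplier
  let Sc : C(ℝ, X) := ⟨fun ψ => (Real.sin ψ • χ) ^ (2 * p),
    (Real.continuous_sin.smul continuous_const).pow _⟩
  -- the right-hand side
  let Fc : ℕ → C(ℝ, X) := fun b => if b < B then ∑ j ∈ Finset.range (J + 1),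
    (bw false j (x b j) + bw true j (y0 b j)) else 0
  have hπ : (2 * ω * Real.pi) ≠ 0 := by positivity
  let T : (ι → ℝ) →ₗ[ℝ] (ι → ℝ) :=
    { toFun := fun v k => κ0 / (2 * ω * Real.pi) * ts k (Sc * Yc v) - c * v k
      map_add' := by
        intro v w
        funext k
        show κ0 / (2 * ω * Real.pi) * ts k (Sc * Yc (v + w)) - c * (v k + w k) =
          (κ0 / (2 * ω * Real.pi) * ts k (Sc * Yc v) - c * v k) +
          (κ0 / (2 * ω * Real.pi) * ts k (Sc * Yc w) - c * w k)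
        rw [map_add, mul_add, map_add]
        ring
      map_smul' := by
        intro r v
        funext k
        show κ0 / (2 * ω * Real.pi) * ts k (Sc * Yc (r • v)) - c * (r * v k) =
          r * (κ0 / (2 * ω * Real.pi) * ts k (Sc * Yc v) - c * v k)
        rw [map_smul, mul_smul_comm, map_smul, smul_eq_mul]
        ring }
  have hT : ∀ v k, T v k = κ0 / (2 * ω * Real.pi) * ts k (Sc * Yc v) - c * v k := fun _ _ => rfl
  let f : ℕ → ι → ℝ := fun b k => - ts k (Fc b) / (2 * ω * Real.pi)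
  obtain ⟨n', y, hy0, hy⟩ := odp (ι → ℝ) T B f (by
    intro b hb
    funext k
    show - ts k (Fc b) / (2 * ω * Real.pi) = 0
    have : Fc b = 0 := if_neg (not_lt.2 hb)
    rw [this, map_zero]
    simp)
  let B' : ℕ := max B n'
  have hyB : ∀ b, B' ≤ b → y b = 0 := fun b hb => hy0 b ((le_max_right _ _).trans hb)
  -- the solution
  let S' : ι → Bool := fun k => !(S k)
  let aV : ℕ → ι → X := fun b k => (sg (S' k) / N k * y b k) • Φ k
  let aQ : ℕ → ι → X := fun b k => ((N k : ℝ) ^ 2 * ω ^ 2) • aV b k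
  let V := gn N B' aV S'
  let qV := gn N B' aQ S'
  have hSS : (fun k => !(S' k)) = S := by
    funext k
    show (!(!(S k))) = S k
    simp
  have hd1V : d1 V = gn N B' (fun b k => y b k • Φ k) S := by
    show d1 (gn N B' aV S') = _
    rw [d1_gn, hSS]
    congr 1
    funext b k
    show ((N k : ℝ) * sg (S' k)) • (sg (S' k) / N k * y b k) • Φ k = y b k • Φ k
    rw [smul_smul]
    have h1 := sg_sq (S' k)
    have h2 := hNr k
    have h3 : (N k : ℝ) * sg (S' k) * (sg (S' k) / N k * y b k) = y b k := by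
      rw [show (N k : ℝ) * sg (S' k) * (sg (S' k) / N k * y b k) =
        (sg (S' k) * sg (S' k)) * ((N k : ℝ) / N k) * y b k by ring, h1, div_self h2]
      ring
    rw [h3]
  have hd2V : d1 (d2 V) = gn N B' (fun b k => (((b : ℝ) + 1) * y (b + 1) k) • Φ k) S := by
    have h0 : d2 V = gn N B' (fun b k => ((b : ℝ) + 1) • aV (b + 1) k) S' := by
      refine d2_gn N B' aV S' fun k => ?_
      show (sg (S' k) / N k * y B' k) • Φ k = 0
      rw [hyB B' le_rfl]
      simp
    rw [h0, d1_gn, hSS]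
    congr 1
    funext b k
    show ((N k : ℝ) * sg (S' k)) • ((b : ℝ) + 1) • (sg (S' k) / N k * y (b + 1) k) • Φ k =
      (((b : ℝ) + 1) * y (b + 1) k) • Φ k
    rw [smul_smul, smul_smul]
    have h1 := sg_sq (S' k)
    have h2 := hNr k
    have h3 : (N k : ℝ) * sg (S' k) * ((b : ℝ) + 1) * (sg (S' k) / N k * y (b + 1) k) =
        ((b : ℝ) + 1) * y (b + 1) k := by
      rw [show (N k : ℝ) * sg (S' k) * ((b : ℝ) + 1) * (sg (S' k) / N k * y (b + 1) k) =
        (sg (S' k) * sg (S' k)) * ((N k : ℝ) / N k) * (((b : ℝ) + 1) * y (b + 1) k) by ring, h1,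
        div_self h2]
      ring
    rw [h3]
  have hVM : V ∈ TL X M := gn_mem N hN B' aV S'
  have hqVM : qV ∈ TL X M := gn_mem N hN B' aQ S'
  have hd1M : d1 V ∈ TL X M := by rw [hd1V]; exact gn_mem N hN B' _ S
  have hd2M : d1 (d2 V) ∈ TL X M := by rw [hd2V]; exact gn_mem N hN B' _ S
  have hmono : ∀ J1 J2 : ℕ, J1 ≤ J2 → TL X J1 ≤ TL X J2 := by
    intro J1 J2 h12
    refine Submodule.span_mono ?_
    rintro P ⟨b, j, s, z, h1, h2, h3⟩
    exact ⟨b, j, s, z, h1, h2.trans h12, h3⟩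
  -- the function G
  let G : ℝ → ℝ → X := fun ψ L => (2 * ω) • d1 (d2 V) ψ L - (2 * ω * c) • d1 V ψ L +
    κ0 • ((Real.sin ψ • χ) ^ (2 * p) * d1 V ψ L) + F ψ L
  have hG : G ∈ TL X (M + 2 * p) := by
    have hM2 : M ≤ M + 2 * p := Nat.le_add_right _ _
    have g1 := Submodule.smul_mem _ (2 * ω) (hmono _ _ hM2 hd2M)
    have g2 := Submodule.smul_mem _ (2 * ω * c) (hmono _ _ hM2 hd1M)
    have g3 := Submodule.smul_mem _ κ0 ((tlm X).1 M p χ _ hd1M)
    have g4 := hmono _ _ (hJM.trans hM2) hFJ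
    exact Submodule.add_mem _ (Submodule.add_mem _ (Submodule.sub_mem _ g1 g2) g3) g4
  -- the continuous functions
  let Gc : ℝ → C(ℝ, X) := fun L => ∑ b ∈ Finset.range B', L ^ b •
    ((2 * ω) • Yc (((b : ℝ) + 1) • y (b + 1)) - (2 * ω * c) • Yc (y b) +
      κ0 • (Sc * Yc (y b)) + Fc b)
  have hYcv : ∀ (v : ι → ℝ) (ψ : ℝ), Yc v ψ = ∑ k, v k • tg (S k) (N k) ψ • Φ k := by
    intro v ψ
    rw [hYc, ContinuousMap.sum_apply]
    rfl
  have hGc : ∀ ψ L, Gc L ψ = G ψ L := by
    intro ψ L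
    have e1 : d1 V ψ L = ∑ b ∈ Finset.range B', L ^ b • Yc (y b) ψ := by
      rw [hd1V]
      show ∑ b ∈ Finset.range B', ∑ k, (L ^ b * tg (S k) (N k) ψ) • (y b k • Φ k) = _
      refine Finset.sum_congr rfl fun b _ => ?_
      rw [hYcv, Finset.smul_sum]
      refine Finset.sum_congr rfl fun k _ => ?_
      rw [smul_smul, smul_smul, smul_smul]
      congr 1
      ring
    have e2 : d1 (d2 V) ψ L = ∑ b ∈ Finset.range B', L ^ b • Yc (((b : ℝ) + 1) • y (b + 1)) ψ := by
      rw [hd2V]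
      show ∑ b ∈ Finset.range B', ∑ k, (L ^ b * tg (S k) (N k) ψ) •
        ((((b : ℝ) + 1) * y (b + 1) k) • Φ k) = _
      refine Finset.sum_congr rfl fun b _ => ?_
      rw [hYcv, Finset.smul_sum]
      refine Finset.sum_congr rfl fun k _ => ?_
      rw [smul_smul, smul_smul, smul_smul]
      congr 1
      show _ = (L ^ b * (((b : ℝ) + 1) * y (b + 1) k)) * tg (S k) (N k) ψ
      ring
    have e3 : F ψ L = ∑ b ∈ Finset.range B', L ^ b • Fc b ψ := by
      rw [hrep]
      have hsub : Finset.range B ⊆ Finset.range B' :=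
        Finset.range_subset_range.2 (le_max_left _ _)
      rw [← Finset.sum_subset hsub]
      · refine Finset.sum_congr rfl fun b hb => ?_
        have h1 : Fc b = ∑ j ∈ Finset.range (J + 1), (bw false j (x b j) + bw true j (y0 b j)) :=
          if_pos (Finset.mem_range.1 hb)
        rw [h1, ContinuousMap.sum_apply, Finset.smul_sum]
        rfl
      · intro b _ hb
        have h1 : Fc b = 0 := if_neg (fun h => hb (Finset.mem_range.2 h))
        rw [h1]
        simp
    show Gc L ψ = (2 * ω) • d1 (d2 V) ψ L - (2 * ω * c) • d1 V ψ L +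
      κ0 • ((Real.sin ψ • χ) ^ (2 * p) * d1 V ψ L) + F ψ L
    rw [e1, e2, e3, Finset.mul_sum, Finset.smul_sum, Finset.smul_sum, Finset.smul_sum,
      ← Finset.sum_sub_distrib, ← Finset.sum_add_distrib, ← Finset.sum_add_distrib]
    show (∑ b ∈ Finset.range B', L ^ b •
      ((2 * ω) • Yc (((b : ℝ) + 1) • y (b + 1)) - (2 * ω * c) • Yc (y b) +
      κ0 • (Sc * Yc (y b)) + Fc b)) ψ = _
    rw [ContinuousMap.sum_apply]
    refine Finset.sum_congr rfl fun b _ => ?_
    show L ^ b • ((2 * ω) • Yc (((b : ℝ) + 1) • y (b + 1)) ψ - (2 * ω * c) • Yc (y b) ψ +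
      κ0 • ((Real.sin ψ • χ) ^ (2 * p) * Yc (y b) ψ) + Fc b ψ) = _
    rw [smul_add, smul_add, smul_sub, smul_comm (L ^ b) (2 * ω), smul_comm (L ^ b) (2 * ω * c),
      smul_comm (L ^ b) κ0, mul_smul_comm]
  -- solvability
  obtain ⟨q, hq, hqe⟩ := slv X H W ω m φ (M + 2 * p) hF G hG (by
    intro n hn i s L
    by_cases hnM : n ≤ M
    · let k : ι := ⟨⟨n, Nat.lt_succ_iff.2 hnM⟩, (i, s)⟩
      have h1 : ∫ ψ in (0 : ℝ)..(2 * Real.pi), tg s n ψ * ⟪W.e (G ψ L), W.e (φ n i)⟫_ℝ =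
          ts k (Gc L) := by
        refine intervalIntegral.integral_congr fun ψ _ => ?_
        show tg s n ψ * ⟪W.e (G ψ L), W.e (φ n i)⟫_ℝ = tg s n ψ * ⟪W.e (Gc L ψ), W.e (φ n i)⟫_ℝ
        rw [hGc]
      rw [h1]
      show ts k (∑ b ∈ Finset.range B', L ^ b •
        ((2 * ω) • Yc (((b : ℝ) + 1) • y (b + 1)) - (2 * ω * c) • Yc (y b) +
        κ0 • (Sc * Yc (y b)) + Fc b)) = 0
      rw [map_sum]
      refine Finset.sum_eq_zero fun b _ => ?_
      have h2 := congrFun (hy b) k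
      have h3 : ((b : ℝ) + 1) * y (b + 1) k + (κ0 / (2 * ω * Real.pi) * ts k (Sc * Yc (y b)) -
        c * y b k) = - ts k (Fc b) / (2 * ω * Real.pi) := h2
      simp only [map_smul, map_add, map_sub, htY, smul_eq_mul]
      have h4 : 2 * ω * (((b : ℝ) + 1) * (Real.pi * y (b + 1) k)) - 2 * ω * c *
          (Real.pi * y b k) + κ0 * ts k (Sc * Yc (y b)) + ts k (Fc b) = 0 := by
        have h6 : (2 * ω * Real.pi) * (κ0 / (2 * ω * Real.pi) * ts k (Sc * Yc (y b))) =
            κ0 * ts k (Sc * Yc (y b)) := by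
          rw [← mul_assoc, mul_div_cancel₀ _ hπ]
        have h7 : (2 * ω * Real.pi) * (- ts k (Fc b) / (2 * ω * Real.pi)) = - ts k (Fc b) :=
          mul_div_cancel₀ _ hπ
        linear_combination (2 * ω * Real.pi) * h3 - h6 + h7
      rw [h4, mul_zero]
    · have h1 := hgap n (not_le.1 hnM) hn
      exact absurd i.2 (by omega))
  refine ⟨V, hVM, qV, hqVM, q, hq, ?_, ?_, ?_⟩
  · intro ψ L
    show ∑ b ∈ Finset.range B', ∑ k, (L ^ b * tg (S' k) (N k) ψ) • aV b k =
      W.SX (∑ b ∈ Finset.range B', ∑ k, (L ^ b * tg (S' k) (N k) ψ) • aQ b k)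
    rw [map_sum]
    refine Finset.sum_congr rfl fun b _ => ?_
    rw [map_sum]
    refine Finset.sum_congr rfl fun k _ => ?_
    rw [map_smul]
    congr 1
    show (sg (S' k) / N k * y b k) • Φ k =
      W.SX (((N k : ℝ) ^ 2 * ω ^ 2) • (sg (S' k) / N k * y b k) • Φ k)
    rw [smul_comm, map_smul, map_smul]
    congr 1
    exact (hF.ev (N k) k.2.1).symm
  · intro ψ L
    rw [hd1V, d1_gn]
    show (ω ^ 2) • (∑ b ∈ Finset.range B', ∑ k, (L ^ b * tg (!(S k)) (N k) ψ) •
      (((N k : ℝ) * sg (S k)) • (y b k • Φ k))) +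
      ∑ b ∈ Finset.range B', ∑ k, (L ^ b * tg (S' k) (N k) ψ) • aQ b k = 0
    rw [Finset.smul_sum, ← Finset.sum_add_distrib]
    refine Finset.sum_eq_zero fun b _ => ?_
    rw [Finset.smul_sum, ← Finset.sum_add_distrib]
    refine Finset.sum_eq_zero fun k _ => ?_
    show (ω ^ 2) • (L ^ b * tg (!(S k)) (N k) ψ) • (((N k : ℝ) * sg (S k)) • (y b k • Φ k)) +
      (L ^ b * tg (!(S k)) (N k) ψ) • ((N k : ℝ) ^ 2 * ω ^ 2) •
        ((sg (!(S k)) / N k * y b k) • Φ k) = 0
    rw [smul_smul, smul_smul, smul_smul, smul_smul, smul_smul, ← add_smul]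
    have h1 := sg_sq (S k)
    have h2 := sg_mul_not (S k)
    have h3 := hNr k
    have h4 : sg (!(S k)) = - sg (S k) := by
      have : sg (S k) * (sg (!(S k)) + sg (S k)) = 0 := by linear_combination h1 + h2
      rcases mul_eq_zero.1 this with h | h
      · rw [h] at h1
        norm_num at h1
      · linarith
    have h5 : ω ^ 2 * (L ^ b * tg (!(S k)) (N k) ψ) * ((N k : ℝ) * sg (S k)) * y b k +
        L ^ b * tg (!(S k)) (N k) ψ * ((N k : ℝ) ^ 2 * ω ^ 2) * (sg (!(S k)) / N k * y b k) = 0 := by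
      rw [h4]
      field_simp
      ring
    rw [h5, zero_smul]
  · intro ψ L
    have h := hqe ψ L
    have h1 : G ψ L = (2 * ω) • d1 (d2 V) ψ L - (2 * ω * c) • d1 V ψ L +
      κ0 • ((Real.sin ψ • χ) ^ (2 * p) * d1 V ψ L) + F ψ L := rfl
    rw [h1] at h
    have h2 : (2 * ω) • d1 (d2 V) ψ L - (2 * ω * c) • d1 V ψ L +
      κ0 • ((Real.sin ψ • χ) ^ (2 * p) * d1 V ψ L) +
      (ω ^ 2) • W.SX (d1 (d1 q) ψ L) + q ψ L + F ψ L =
      ((2 * ω) • d1 (d2 V) ψ L - (2 * ω * c) • d1 V ψ L +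
      κ0 • ((Real.sin ψ • χ) ^ (2 * p) * d1 V ψ L) + F ψ L) +
      ((ω ^ 2) • W.SX (d1 (d1 q) ψ L) + q ψ L) := by abel
    rw [h2, h]
    abel

end

end Pool.Agent.BER.H58
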